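import Pool.Agent.V11228.MinR

/-!
# The minimum rank problem is hard for `∃ℝ` for every constant bound `r ≥ 2`
-/

open Pool.Agent.NPC Pool.Agent.NPC.ER Pool.Agent.NPC.V11228

/-- For every fixed `r ≥ 2` it is `∃ℝ`-hard to decide whether some real substitution for the
variables of a variable matrix gives a matrix of rank at most `r`. -/
theorem Pool.Agent.Results.MP_51fc0b_lc.FixedBoundHard.result (r : ℕ) (hr : 2 ≤ r) :
    ERHard (lang (MinRankLE r)) :=
  minRank_hard r hr
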